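import Pool.Agent.Run7.h367.SP.Dec

/-!
# The path-chromatic number and the clique minors of strong products

The strong product `G ⊠ H` has the vertex set `V(G) × V(H)`; distinct vertices `(a, b)`, `(a', b')` are
adjacent if and only if (`a = a'` or `a a'` is an edge of `G`) and (`b = b'` or `b b'` is an edge of `H`).
We call `H` `N`-wide if it contains a path with `N` vertices, or a set `Q` that induces a connected
subgraph and has at least `N` neighbours outside of `Q`; every connected graph with at least `N²` vertices
is `N`-wide.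

**Theorem.**  Let `G` be any graph, `c ≥ χ(G)`, and let `H` be a `2c`-wide graph (for instance, a
connected graph with at least `4 c²` vertices) with path-chromatic number at most `2`.  Then Q1 holds for
`G ⊠ H`: if it has no minor `K_{t+1}`, then its path-chromatic number is at most `t`.  The same holds if
`H` has path-chromatic number at most `r + 2`, is connected, has a minor `K_{r c + 2}` and at
least `(r c + 2) 2 c ((r + 2) c + 1)` vertices.

The chromatic number of a graph with path-chromatic number `2` may be arbitrarily large, so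
in general it is not known whether these products satisfy Hadwiger's conjecture.

Proof.  If `χ(G) = s`, then the strong product of `G` with a `2s`-wide graph has a minor `K_{2s}` (see
StrongProducts of MP_b47bfb_co), the strong product with a large connected graph that has a minor
`K_{h+2}` has a minor `K_{2s+h}`.  If `B_1, …, B_m` is a path decomposition of `H`, then the sets `V(G) × B_i` are
the bags of a path decomposition of `G ⊠ H`, and `V(G) × B_i` is `s (r + 2)`-colourable if `B_i` is
`(r + 2)`-colourable.
-/

set_option autoImplicit false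

namespace Pool.Agent.Results.MP_8d69a1_co.StrongProducts

/-- `K_m` is a minor of `G`: there are `m` pairwise disjoint vertex sets, each inducing a connected
subgraph, with an edge of `G` between any two of them. -/
def HasCliqueMinor {V : Type} (G : SimpleGraph V) (m : ℕ) : Prop :=
  ∃ B : Fin m → Set V,
    (∀ i, (G.induce (B i)).Connected) ∧
    (∀ i j, i ≠ j → Disjoint (B i) (B j)) ∧
    (∀ i j, i ≠ j → ∃ u ∈ B i, ∃ w ∈ B j, G.Adj u w)

/-- The strong product of `G` and `H`. -/
def strongProduct {V W : Type} (G : SimpleGraph V) (H : SimpleGraph W) :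
    SimpleGraph (V × W) where
  Adj x y := x ≠ y ∧ (x.1 = y.1 ∨ G.Adj x.1 y.1) ∧ (x.2 = y.2 ∨ H.Adj x.2 y.2)
  symm := ⟨fun _ _ h => ⟨h.1.symm, h.2.1.imp Eq.symm SimpleGraph.Adj.symm,
    h.2.2.imp Eq.symm SimpleGraph.Adj.symm⟩⟩
  loopless := ⟨fun _ h => h.1 rfl⟩

/-- `W` has at least `N` elements. -/
def AtLeast (W : Type) (N : ℕ) : Prop := ∃ f : Fin N → W, Function.Injective f

/-- `H` contains a path with `N` vertices, or a set `Q` that induces a connected subgraph and
`N` different vertices that do not belong to `Q` and are adjacent to vertices of `Q`. -/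
def Wide {W : Type} (H : SimpleGraph W) (N : ℕ) : Prop :=
  (∃ p : Fin N → W, Function.Injective p ∧ ∀ i j : Fin N, i.1 + 1 = j.1 → H.Adj (p i) (p j)) ∨
  ∃ (Q : Set W) (ν : Fin N → W), (H.induce Q).Connected ∧ Function.Injective ν ∧
    ∀ i, ν i ∉ Q ∧ ∃ q ∈ Q, H.Adj q (ν i)

/-- The path-chromatic number of `G` is at most `t`: there is a path decomposition with `t`-colourable
bags. -/
def PathColorable {V : Type} (G : SimpleGraph V) (t : ℕ) : Prop :=
  ∃ (m : ℕ) (B : Fin m → Set V),
    (∀ v : V, ∃ i, v ∈ B i) ∧
    (∀ u v : V, G.Adj u v → ∃ i, u ∈ B i ∧ v ∈ B i) ∧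
    (∀ (v : V) (i j k : Fin m), i ≤ j → j ≤ k → v ∈ B i → v ∈ B k → v ∈ B j) ∧
    (∀ i, (G.induce (B i)).Colorable t)

theorem result :
    (∀ (c t : ℕ) (V W : Type) (G : SimpleGraph V) (H : SimpleGraph W),
      G.Colorable c → Wide H (2 * c) → PathColorable H 2 →
      ¬ HasCliqueMinor (strongProduct G H) (t + 1) → PathColorable (strongProduct G H) t) ∧
    (∀ (N : ℕ) (W : Type) (H : SimpleGraph W), H.Connected → AtLeast W (N * N) → Wide H N) ∧
    (∀ (c r t : ℕ) (V W : Type) (G : SimpleGraph V) (H : SimpleGraph W),
      G.Colorable c → H.Connected → HasCliqueMinor H (r * c + 2) →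
      AtLeast W ((r * c + 2) * (2 * c * ((r + 2) * c + 1))) → PathColorable H (r + 2) →
      ¬ HasCliqueMinor (strongProduct G H) (t + 1) → PathColorable (strongProduct G H) t) := by
  refine ⟨?_, ?_, ?_⟩
  · intro c t V W G H hG hH hT ht
    exact Pool.Agent.Run7.h367.SP.path_strong (r := 0) hG (Or.inl ⟨rfl, hH⟩) hT ht
  · intro N W H hH hf
    exact Pool.Agent.Run7.h367.SP.wide_of_large hH hf
  · intro c r t V W G H hG h1 h2 h3 hT ht
    exact Pool.Agent.Run7.h367.SP.path_strong hG (Or.inr ⟨h1, h2, h3⟩) hT ht

end Pool.Agent.Results.MP_8d69a1_co.StrongProducts
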